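import Mathlib

/-!
# Hermite constants: definitions, upper bound
-/

open MeasureTheory

namespace Pool.Agent.Lib.MP_2cd45e_co

/-- the set of the squared lengths of the nonzero vectors of the lattice with basis matrix `B` -/
def lenSet {ι : Type} [Fintype ι] (B : Matrix ι ι ℝ) : Set ℝ :=
  {t : ℝ | ∃ v : ι → ℤ, v ≠ 0 ∧ t = ∑ i, (B.mulVec (fun j => (v j : ℝ))) i ^ 2}

/-- the Hermite constant in dimension `d` -/
noncomputable def hermite (d : ℕ) : ℝ :=
  sSup {r : ℝ | ∃ B : Matrix (Fin d) (Fin d) ℝ, B.det ≠ 0 ∧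
    r = sInf {t : ℝ | ∃ v : Fin d → ℤ, v ≠ 0 ∧
      t = ∑ i, (B.mulVec (fun j => (v j : ℝ))) i ^ 2} / |B.det| ^ ((2:ℝ) / (d:ℝ))}

theorem lenSet_nonneg {ι : Type} [Fintype ι] (B : Matrix ι ι ℝ) : ∀ t ∈ lenSet B, 0 ≤ t := by
  rintro t ⟨v, _, rfl⟩
  exact Finset.sum_nonneg fun i _ => sq_nonneg _

theorem lenSet_bddBelow {ι : Type} [Fintype ι] (B : Matrix ι ι ℝ) : BddBelow (lenSet B) :=
  ⟨0, fun t ht => lenSet_nonneg B t ht⟩

/-- Minkowski -/
theorem exists_short {d : ℕ} (hd : 0 < d) (B : Matrix (Fin d) (Fin d) ℝ) (hB : B.det ≠ 0) :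
    ∃ t ∈ lenSet B, t ≤ 4 * (d : ℝ) * |B.det| ^ ((2:ℝ) / (d:ℝ)) := by
  classical
  have hD : 0 < |B.det| := abs_pos.mpr hB
  have hd' : (0 : ℝ) < d := by exact_mod_cast hd
  -- the basis formed by the columns
  let b : Module.Basis (Fin d) ℝ (Fin d → ℝ) :=
    basisOfPiSpaceOfLinearIndependent (b := fun j => B.transpose j)
      (Matrix.linearIndependent_rows_of_det_ne_zero (A := B.transpose) (by
        rw [Matrix.det_transpose]; exact hB))
  have hb : ∀ j, b j = B.transpose j := by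
    intro j
    simp [b]
  set R : ℝ := (2 * |B.det|) ^ ((1:ℝ) / (d:ℝ)) with hR
  have hR0 : 0 < R := Real.rpow_pos_of_pos (by positivity) _
  have hRd : R ^ d = 2 * |B.det| := by
    rw [hR, ← Real.rpow_natCast, ← Real.rpow_mul (by positivity), one_div,
      inv_mul_cancel₀ hd'.ne', Real.rpow_one]
  set s : Set (Fin d → ℝ) := Set.pi Set.univ fun _ => Set.Ioo (-R) R with hs
  have hvolF : volume (ZSpan.fundamentalDomain b) = ENNReal.ofReal |B.det| := by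
    rw [ZSpan.volume_fundamentalDomain]
    congr 2
    have : (Matrix.of b : Matrix (Fin d) (Fin d) ℝ) = B.transpose := by
      ext i j
      rw [Matrix.of_apply, hb]
    rw [this, Matrix.det_transpose]
  have hvols : volume s = ENNReal.ofReal ((2 * R) ^ d) := by
    rw [hs, Real.volume_pi_Ioo]
    simp only [sub_neg_eq_add, Finset.prod_const, Finset.card_univ, Fintype.card_fin]
    rw [← ENNReal.ofReal_pow (by positivity)]
    congr 2
    ring
  have hcount : Countable (Submodule.span ℤ (Set.range b)).toAddSubgroup :=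
    inferInstanceAs (Countable (Submodule.span ℤ (Set.range b)))
  obtain ⟨x, hx0, hxs⟩ := exists_ne_zero_mem_lattice_of_measure_mul_two_pow_lt_measure
    (μ := volume) (s := s) (ZSpan.isAddFundamentalDomain' b volume)
    (by
      intro x hx i hi
      have := hx i hi
      rw [Set.mem_Ioo] at this ⊢
      simp only [Pi.neg_apply]
      constructor <;> linarith [this.1, this.2])
    (convex_pi fun i _ => convex_Ioo _ _)
    (by
      rw [hvolF, hvols, Module.finrank_fin_fun,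
        show (2 : ENNReal) ^ d = ENNReal.ofReal (2 ^ d) by
          rw [ENNReal.ofReal_pow (by norm_num)]; norm_num,
        ← ENNReal.ofReal_mul (by positivity)]
      apply (ENNReal.ofReal_lt_ofReal_iff (by positivity)).mpr
      rw [mul_pow, hRd]
      have : (0 : ℝ) < 2 ^ d := by positivity
      nlinarith)
  -- coordinates
  have hxm : (x : Fin d → ℝ) ∈ Submodule.span ℤ (Set.range b) := x.2
  rw [Submodule.mem_span_range_iff_exists_fun] at hxm
  obtain ⟨v, hv⟩ := hxm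
  have hvx : B.mulVec (fun j => (v j : ℝ)) = x := by
    rw [← hv]
    ext i
    rw [Matrix.mulVec, dotProduct, Finset.sum_apply]
    refine Finset.sum_congr rfl fun j _ => ?_
    rw [Pi.smul_apply, hb, Matrix.transpose_apply, zsmul_eq_mul, mul_comm]
  refine ⟨∑ i, (B.mulVec (fun j => (v j : ℝ))) i ^ 2, ⟨v, ?_, rfl⟩, ?_⟩
  · rintro rfl
    apply hx0
    apply Subtype.ext
    rw [← hvx]
    ext i
    simp [Matrix.mulVec, dotProduct]
  · rw [hvx]
    have h1 : ∀ i, ((x : Fin d → ℝ) i) ^ 2 ≤ R ^ 2 := by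
      intro i
      have := hxs i (Set.mem_univ i)
      rw [Set.mem_Ioo] at this
      exact sq_le_sq' this.1.le this.2.le
    have h2 : ∑ i, ((x : Fin d → ℝ) i) ^ 2 ≤ d * R ^ 2 := by
      refine (Finset.sum_le_sum fun i _ => h1 i).trans ?_
      simp
    refine h2.trans ?_
    have h3 : R ^ 2 = (2 : ℝ) ^ ((2:ℝ) / (d:ℝ)) * |B.det| ^ ((2:ℝ) / (d:ℝ)) := by
      rw [hR, ← Real.rpow_natCast, ← Real.rpow_mul (by positivity),
        ← Real.mul_rpow (by norm_num) hD.le]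
      congr 1
      push_cast
      ring
    have h4 : (2 : ℝ) ^ ((2:ℝ) / (d:ℝ)) ≤ 4 := by
      have h5 : (2:ℝ) / (d:ℝ) ≤ 2 := by
        rw [div_le_iff₀ hd']
        have : (1 : ℝ) ≤ d := by exact_mod_cast hd
        linarith
      calc (2 : ℝ) ^ ((2:ℝ) / (d:ℝ)) ≤ 2 ^ (2 : ℝ) :=
            Real.rpow_le_rpow_of_exponent_le (by norm_num) h5
        _ = 4 := by norm_num
    rw [h3]
    have h6 : 0 ≤ |B.det| ^ ((2:ℝ) / (d:ℝ)) := Real.rpow_nonneg hD.le _
    nlinarith [mul_le_mul_of_nonneg_right h4 h6]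

/-- all quotients are at most `4 d` -/
theorem quot_le {d : ℕ} (hd : 0 < d) (B : Matrix (Fin d) (Fin d) ℝ) (hB : B.det ≠ 0) :
    sInf (lenSet B) / |B.det| ^ ((2:ℝ) / (d:ℝ)) ≤ 4 * d := by
  obtain ⟨t, ht, h⟩ := exists_short hd B hB
  have hpos : 0 < |B.det| ^ ((2:ℝ) / (d:ℝ)) := Real.rpow_pos_of_pos (abs_pos.mpr hB) _
  rw [div_le_iff₀ hpos]
  exact (csInf_le (lenSet_bddBelow B) ht).trans h

theorem bddAbove_quot {d : ℕ} (hd : 0 < d) :
    BddAbove {r : ℝ | ∃ B : Matrix (Fin d) (Fin d) ℝ, B.det ≠ 0 ∧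
      r = sInf (lenSet B) / |B.det| ^ ((2:ℝ) / (d:ℝ))} := by
  refine ⟨4 * d, ?_⟩
  rintro r ⟨B, hB, rfl⟩
  exact quot_le hd B hB

theorem nonempty_quot (d : ℕ) :
    {r : ℝ | ∃ B : Matrix (Fin d) (Fin d) ℝ, B.det ≠ 0 ∧
      r = sInf (lenSet B) / |B.det| ^ ((2:ℝ) / (d:ℝ))}.Nonempty :=
  ⟨_, 1, by simp, rfl⟩

theorem hermite_eq (d : ℕ) :
    hermite d = sSup {r : ℝ | ∃ B : Matrix (Fin d) (Fin d) ℝ, B.det ≠ 0 ∧
      r = sInf (lenSet B) / |B.det| ^ ((2:ℝ) / (d:ℝ))} := rfl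

theorem hermite_le {d : ℕ} (hd : 0 < d) : hermite d ≤ 4 * d := by
  rw [hermite_eq]
  refine csSup_le (nonempty_quot d) ?_
  rintro r ⟨B, hB, rfl⟩
  exact quot_le hd B hB

/-- `r` is at most a Hermite quotient, for matrices with rows and columns in `ι` -/
def Good (ι : Type) [Fintype ι] [DecidableEq ι] (r : ℝ) : Prop :=
  ∃ B : Matrix ι ι ℝ, B.det ≠ 0 ∧ ∀ v : ι → ℤ, v ≠ 0 →
    r * |B.det| ^ ((2:ℝ) / (Fintype.card ι : ℝ)) ≤ ∑ i, (B.mulVec (fun j => (v j : ℝ))) i ^ 2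

theorem le_hermite {d : ℕ} (hd : 0 < d) {r : ℝ} (h : Good (Fin d) r) : r ≤ hermite d := by
  obtain ⟨B, hB, hv⟩ := h
  rw [Fintype.card_fin] at hv
  have hpos : 0 < |B.det| ^ ((2:ℝ) / (d:ℝ)) := Real.rpow_pos_of_pos (abs_pos.mpr hB) _
  rw [hermite_eq]
  refine le_trans ?_ (le_csSup (bddAbove_quot hd) ⟨B, hB, rfl⟩)
  rw [le_div_iff₀ hpos]
  obtain ⟨t, ht, _⟩ := exists_short hd B hB
  refine le_csInf ⟨t, ht⟩ ?_
  rintro t ⟨v, hv0, rfl⟩
  exact hv v hv0

theorem good_of_lt {d : ℕ} {r : ℝ} (h : r < hermite d) : Good (Fin d) r := by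
  rw [hermite_eq] at h
  obtain ⟨q, ⟨B, hB, rfl⟩, hq⟩ := exists_lt_of_lt_csSup (nonempty_quot d) h
  have hpos : 0 < |B.det| ^ ((2:ℝ) / (d:ℝ)) := Real.rpow_pos_of_pos (abs_pos.mpr hB) _
  refine ⟨B, hB, fun v hv => ?_⟩
  rw [Fintype.card_fin]
  rw [lt_div_iff₀ hpos] at hq
  have hmem : ∑ i, (B.mulVec (fun j => (v j : ℝ))) i ^ 2 ∈ lenSet B := ⟨v, hv, rfl⟩
  exact hq.le.trans (csInf_le (lenSet_bddBelow B) hmem)

end Pool.Agent.Lib.MP_2cd45e_co
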