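import Pool.Agent.Lib.MP_2cd45e_co.TwoThree

/-!
# Equivalent forms of the convergence of `hermite d / d`
-/

open Filter Topology

namespace Pool.Agent.Lib.MP_2cd45e_co

theorem abs_quo_le (n : ℕ) : |quo n| ≤ 4 := by
  rw [abs_of_nonneg (quo_nonneg n)]
  exact quo_le n

/-- means of `u 1, …, u N` -/
theorem mean_shift {u : ℕ → ℝ} (h0 : u 0 = 0) {L : ℝ}
    (h : Tendsto (fun N : ℕ => (∑ d ∈ Finset.range N, u (d + 1)) / N) atTop (𝓝 L)) :
    Tendsto (fun n : ℕ => (∑ i ∈ Finset.range n, u i) / n) atTop (𝓝 L) := by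
  rw [← tendsto_add_atTop_iff_nat 1]
  have h1 : Tendsto (fun N : ℕ => (N : ℝ) / (N + 1)) atTop (𝓝 1) :=
    tendsto_natCast_div_add_atTop 1
  have h2 := h.mul h1
  rw [mul_one] at h2
  refine h2.congr' ?_
  filter_upwards [eventually_gt_atTop 0] with N hN
  have hN' : (0 : ℝ) < N := by exact_mod_cast hN
  rw [Finset.sum_range_succ', h0, add_zero]
  push_cast
  field_simp

theorem mean_of_tendsto {u : ℕ → ℝ} {L : ℝ} (h : Tendsto u atTop (𝓝 L)) :
    Tendsto (fun N : ℕ => (∑ d ∈ Finset.range N, u (d + 1)) / N) atTop (𝓝 L) := by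
  have h1 : Tendsto (fun n => u (n + 1)) atTop (𝓝 L) := (tendsto_add_atTop_iff_nat 1).mpr h
  refine h1.cesaro.congr fun N => ?_
  rw [div_eq_inv_mul]

theorem prod_pos (N : ℕ) : 0 < ∏ d ∈ Finset.range N, quo (d + 1) :=
  Finset.prod_pos fun d _ => quo_pos (Nat.succ_pos d)

theorem log_geo {N : ℕ} : Real.log ((∏ d ∈ Finset.range N, quo (d + 1)) ^ ((1 : ℝ) / N)) =
    (∑ d ∈ Finset.range N, Real.log (quo (d + 1))) / N := by
  rw [Real.log_rpow (prod_pos N), Real.log_prod (fun d _ => (quo_pos (Nat.succ_pos d)).ne')]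
  ring

theorem geo_pos (N : ℕ) : 0 < (∏ d ∈ Finset.range N, quo (d + 1)) ^ ((1 : ℝ) / N) :=
  Real.rpow_pos_of_pos (prod_pos N) _

theorem le_geo {N : ℕ} (hN : 0 < N) :
    1 / 144 ≤ (∏ d ∈ Finset.range N, quo (d + 1)) ^ ((1 : ℝ) / N) := by
  have hN' : (0 : ℝ) < N := by exact_mod_cast hN
  have h1 : ((1 : ℝ) / 144) ^ N ≤ ∏ d ∈ Finset.range N, quo (d + 1) := by
    have h2 : ((1 : ℝ) / 144) ^ N = ∏ d ∈ Finset.range N, (1 / 144 : ℝ) := by
      rw [Finset.prod_const, Finset.card_range]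
    rw [h2]
    exact Finset.prod_le_prod (fun _ _ => by norm_num) fun d _ => le_quo (Nat.succ_pos d)
  have h2 := Real.rpow_le_rpow (by positivity) h1 (show (0 : ℝ) ≤ 1 / N by positivity)
  rwa [← Real.rpow_natCast, ← Real.rpow_mul (by norm_num), mul_one_div_cancel hN'.ne',
    Real.rpow_one] at h2

theorem final : List.TFAE [
    ∃ L : ℝ, Tendsto (fun d : ℕ => hermite d / d) atTop (𝓝 L),
    ∃ s : ℕ → ℕ, StrictMono s ∧ Tendsto (fun k => (s (k + 1) : ℝ) / s k) atTop (𝓝 1) ∧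
      ∃ L : ℝ, Tendsto (fun k => hermite (s k) / s k) atTop (𝓝 L),
    ∀ δ > 0, ∃ s : ℕ → ℕ, StrictMono s ∧ (∀ᶠ k in atTop, (s (k + 1) : ℝ) ≤ (1 + δ) * s k) ∧
      ∃ L : ℝ, Tendsto (fun k => hermite (s k) / s k) atTop (𝓝 L),
    ∀ ε > 0, ∃ D : ℕ, ∀ d ≥ D, ∀ i j : ℕ,
      hermite d / d - ε ≤ hermite (2 ^ i * 3 ^ j * d) / ((2 ^ i * 3 ^ j * d : ℕ) : ℝ),
    ∃ L : ℝ, Tendsto (fun N : ℕ => (∑ d ∈ Finset.range N, hermite (d + 1) / ((d + 1 : ℕ) : ℝ)) / N)
      atTop (𝓝 L),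
    ∃ L : ℝ, Tendsto (fun N : ℕ =>
      (∏ d ∈ Finset.range N, hermite (d + 1) / ((d + 1 : ℕ) : ℝ)) ^ ((1 : ℝ) / N)) atTop (𝓝 L)] := by
  tfae_have 1 → 2 := by
    rintro ⟨L, hL⟩
    refine ⟨fun k => k + 1, fun a b h => Nat.succ_lt_succ h, ?_, L, ?_⟩
    · have h1 : Tendsto (fun N : ℕ => (N : ℝ) / (N + 1)) atTop (𝓝 1) :=
        tendsto_natCast_div_add_atTop 1
      have h2 := (tendsto_add_atTop_iff_nat 1).mpr h1
      have h3 := h2.inv₀ one_ne_zero
      rw [inv_one] at h3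
      refine h3.congr fun k => ?_
      rw [inv_div]
      push_cast
      rfl
    · exact (tendsto_add_atTop_iff_nat 1).mpr hL
  tfae_have 2 → 3 := by
    rintro ⟨s, hs, hrat, L, hL⟩ δ hδ
    refine ⟨s, hs, ?_, L, hL⟩
    have h1 : ∀ᶠ k in atTop, (s (k + 1) : ℝ) / s k < 1 + δ :=
      hrat.eventually_lt_const (by linarith)
    filter_upwards [h1, eventually_gt_atTop 0] with k hk hk0
    have h2 : 0 < s k := lt_of_lt_of_le hk0 (hs.id_le k)
    have h3 : (0 : ℝ) < s k := by exact_mod_cast h2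
    rw [div_lt_iff₀ h3] at hk
    exact hk.le
  tfae_have 3 → 1 := fun h => quo_slowDec.sub h
  tfae_have 1 → 4 := by
    rintro ⟨L, hL⟩ ε hε
    have h1 := (Metric.tendsto_atTop.mp hL) (ε / 2) (by positivity)
    obtain ⟨D, hD⟩ := h1
    refine ⟨D, fun d hd i j => ?_⟩
    have h2 := hD d hd
    have h3 := hD (2 ^ i * 3 ^ j * d) (hd.trans (Nat.le_mul_of_pos_left d (by positivity)))
    rw [Real.dist_eq, abs_lt] at h2 h3
    linarith [h2.2, h3.1]
  tfae_have 4 → 1 := fun h => quo_slowDec.two_three abs_quo_le h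
  tfae_have 1 → 5 := by
    rintro ⟨L, hL⟩
    exact ⟨L, mean_of_tendsto (u := quo) hL⟩
  tfae_have 5 → 1 := by
    rintro ⟨L, hL⟩
    exact ⟨L, quo_slowDec.mean (mean_shift (u := quo) quo_zero hL)⟩
  tfae_have 1 → 6 := by
    rintro ⟨L, hL⟩
    have hL' : Tendsto quo atTop (𝓝 L) := hL
    have hL0 : 1 / 144 ≤ L := by
      refine ge_of_tendsto hL' ?_
      filter_upwards [eventually_gt_atTop 0] with d hd
      exact le_quo hd
    have h1 : Tendsto (fun d => Real.log (quo d)) atTop (𝓝 (Real.log L)) :=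
      hL'.log (by linarith)
    have h2 := mean_of_tendsto h1
    refine ⟨L, ?_⟩
    have h3 := (Real.continuous_exp.tendsto _).comp h2
    rw [Real.exp_log (by linarith)] at h3
    refine h3.congr fun N => ?_
    show Real.exp ((∑ d ∈ Finset.range N, Real.log (quo (d + 1))) / N) = _
    rw [← log_geo, Real.exp_log (geo_pos N)]
    rfl
  tfae_have 6 → 1 := by
    rintro ⟨G, hG⟩
    have hG' : Tendsto (fun N : ℕ => (∏ d ∈ Finset.range N, quo (d + 1)) ^ ((1 : ℝ) / N))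
      atTop (𝓝 G) := hG
    have hG0 : 1 / 144 ≤ G := by
      refine ge_of_tendsto hG' ?_
      filter_upwards [eventually_gt_atTop 0] with N hN
      exact le_geo hN
    have h1 := hG'.log (by linarith)
    have h2 : Tendsto (fun N : ℕ => (∑ d ∈ Finset.range N, Real.log (quo (d + 1))) / N) atTop
        (𝓝 (Real.log G)) := h1.congr fun N => log_geo
    have h3 := log_quo_slowDec.mean (mean_shift (u := fun d => Real.log (quo d))
      (by simp [quo_zero]) h2)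
    have h4 := (Real.continuous_exp.tendsto _).comp h3
    rw [Real.exp_log (by linarith)] at h4
    refine ⟨G, h4.congr' ?_⟩
    filter_upwards [eventually_gt_atTop 0] with d hd
    show Real.exp (Real.log (quo d)) = _
    rw [Real.exp_log (quo_pos hd)]
    rfl
  tfae_finish

end Pool.Agent.Lib.MP_2cd45e_co
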