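import Pool.Agent.Lib.MP_2cd45e_co.Basic

/-!
# Hermite constants: a linear lower bound
-/

namespace Pool.Agent.Lib.MP_2cd45e_co

/-- the integer vectors of squared length less than `d` -/
noncomputable def shortV (d : ℕ) : Finset (Fin d → ℤ) := by
  classical
  exact (Fintype.piFinset fun _ => Finset.Icc (-(d : ℤ)) d).filter fun x =>
    ∑ i, x i ^ 2 < (d : ℤ)

theorem mem_shortV {d : ℕ} {x : Fin d → ℤ} : x ∈ shortV d ↔ ∑ i, x i ^ 2 < (d : ℤ) := by
  classical
  unfold shortV
  rw [Finset.mem_filter, Fintype.mem_piFinset]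
  refine ⟨fun h => h.2, fun h => ⟨fun i => ?_, h⟩⟩
  have h1 : x i ^ 2 ≤ ∑ j, x j ^ 2 :=
    Finset.single_le_sum (f := fun j => x j ^ 2) (fun j _ => sq_nonneg _) (Finset.mem_univ i)
  have h2 : x i ^ 2 < (d : ℤ) := lt_of_le_of_lt h1 h
  rw [Finset.mem_Icc]
  constructor
  · nlinarith [sq_nonneg (x i), sq_nonneg (x i + 1)]
  · nlinarith [sq_nonneg (x i), sq_nonneg (x i - 1)]

/-- the sum of `2 ^ (-|k|)` over `-d ≤ k ≤ d` is at most `3` -/
theorem sum_half_pow (d : ℕ) :
    ∑ k ∈ Finset.Icc (-(d : ℤ)) d, ((1 : ℝ) / 2) ^ k.natAbs ≤ 3 := by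
  have key : ∀ d : ℕ, ∑ k ∈ Finset.Icc (-(d : ℤ)) d, ((1 : ℝ) / 2) ^ k.natAbs =
      3 - 2 * (1 / 2) ^ d := by
    intro d
    induction d with
    | zero => norm_num
    | succ d ih =>
      have h1 : Finset.Icc (-((d + 1 : ℕ) : ℤ)) ((d + 1 : ℕ) : ℤ) =
          insert (-((d : ℤ) + 1)) (insert ((d : ℤ) + 1) (Finset.Icc (-(d : ℤ)) d)) := by
        ext k
        simp only [Finset.mem_Icc, Finset.mem_insert]
        push_cast
        constructor
        · rintro ⟨h1, h2⟩
          by_cases h3 : k = -((d : ℤ) + 1)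
          · exact Or.inl h3
          · by_cases h4 : k = (d : ℤ) + 1
            · exact Or.inr (Or.inl h4)
            · exact Or.inr (Or.inr ⟨by omega, by omega⟩)
        · rintro (h | h | h)
          · constructor <;> omega
          · constructor <;> omega
          · constructor <;> omega
      rw [h1, Finset.sum_insert, Finset.sum_insert, ih]
      · have h2 : (-((d : ℤ) + 1)).natAbs = d + 1 := by omega
        have h3 : ((d : ℤ) + 1).natAbs = d + 1 := by omega
        rw [h2, h3, pow_succ]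
        ring
      · simp
      · simp only [Finset.mem_insert, Finset.mem_Icc, not_or, not_and]
        constructor
        · omega
        · intro h
          omega
  rw [key]
  have : (0 : ℝ) ≤ (1 / 2) ^ d := by positivity
  linarith

theorem card_shortV (d : ℕ) : ((shortV d).card : ℝ) ≤ 6 ^ d := by
  classical
  have h1 : ∑ x ∈ shortV d, ((1 : ℝ) / 2) ^ d ≤
      ∑ x ∈ Fintype.piFinset fun _ : Fin d => Finset.Icc (-(d : ℤ)) d,
        ∏ i, ((1 : ℝ) / 2) ^ (x i).natAbs := by
    refine (Finset.sum_le_sum fun x hx => ?_).trans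
      (Finset.sum_le_sum_of_subset_of_nonneg (Finset.filter_subset _ _) fun x _ _ =>
        Finset.prod_nonneg fun i _ => by positivity)
    rw [mem_shortV] at hx
    rw [Finset.prod_pow_eq_pow_sum]
    apply pow_le_pow_of_le_one (by norm_num) (by norm_num)
    have h2 : ∀ i, ((x i).natAbs : ℤ) ≤ x i ^ 2 := by
      intro i
      rw [Int.natCast_natAbs, ← sq_abs]
      have := abs_nonneg (x i)
      nlinarith [Int.emod_two_eq_zero_or_one (x i), sq_nonneg (|x i| - 1), this,
        show |x i| ≤ |x i| ^ 2 from by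
          rcases eq_or_lt_of_le this with h | h
          · rw [← h]; norm_num
          · have : 1 ≤ |x i| := h
            nlinarith]
    have h3 : ((∑ i, (x i).natAbs : ℕ) : ℤ) ≤ ∑ i, x i ^ 2 := by
      push_cast [Nat.cast_sum]
      exact Finset.sum_le_sum fun i _ => by simpa using h2 i
    omega
  rw [Finset.sum_const, nsmul_eq_mul] at h1
  have h2 : ∑ x ∈ Fintype.piFinset fun _ : Fin d => Finset.Icc (-(d : ℤ)) d,
        ∏ i, ((1 : ℝ) / 2) ^ (x i).natAbs ≤ 3 ^ d := by
    have e := Finset.prod_univ_sum (fun _ : Fin d => Finset.Icc (-(d : ℤ)) d)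
      (fun _ (k : ℤ) => ((1 : ℝ) / 2) ^ k.natAbs)
    rw [← e]
    calc ∏ _i : Fin d, ∑ k ∈ Finset.Icc (-(d : ℤ)) d, ((1 : ℝ) / 2) ^ k.natAbs
        ≤ ∏ _i : Fin d, (3 : ℝ) := Finset.prod_le_prod (fun i _ => Finset.sum_nonneg fun k _ => by
          positivity) fun i _ => sum_half_pow d
      _ = 3 ^ d := by simp
  have h3 := h1.trans h2
  have h4 : ((1 : ℝ) / 2) ^ d * 2 ^ d = 1 := by
    rw [← mul_pow]
    norm_num
  have h5 : (6 : ℝ) ^ d = 3 ^ d * 2 ^ d := by
    rw [← mul_pow]
    norm_num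
  rw [h5]
  calc ((shortV d).card : ℝ) = ((shortV d).card : ℝ) * (1 / 2) ^ d * 2 ^ d := by
        rw [mul_assoc, h4, mul_one]
    _ ≤ 3 ^ d * 2 ^ d := mul_le_mul_of_nonneg_right h3 (by positivity)

end Pool.Agent.Lib.MP_2cd45e_co
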