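import Pool.Agent.Lib.MP_2cd45e_co.Lower

/-!
# Hermite constants: `hermite d ≥ d / 144`
-/

open Polynomial

namespace Pool.Agent.Lib.MP_2cd45e_co

/-- the polynomial with coefficients `x` mod `p` -/
private noncomputable def pol (p n : ℕ) (x : Fin (n + 1) → ℤ) : (ZMod p)[X] :=
  ∑ j : Fin (n + 1), C (x j : ZMod p) * X ^ (j : ℕ)

private theorem pol_coeff (p n : ℕ) (x : Fin (n + 1) → ℤ) (j : Fin (n + 1)) :
    (pol p n x).coeff (j : ℕ) = (x j : ZMod p) := by
  classical
  rw [pol, finsetSum_coeff]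
  rw [Finset.sum_eq_single j]
  · rw [coeff_C_mul, coeff_X_pow, if_pos rfl, mul_one]
  · intro i _ hij
    rw [coeff_C_mul, coeff_X_pow, if_neg, mul_zero]
    intro h
    exact hij (Fin.ext h.symm)
  · intro h
    exact absurd (Finset.mem_univ j) h

private theorem pol_degree (p n : ℕ) (x : Fin (n + 1) → ℤ) : (pol p n x).natDegree ≤ n := by
  rw [pol]
  refine natDegree_sum_le_of_forall_le _ _ fun j _ => ?_
  refine (natDegree_C_mul_X_pow_le _ _).trans ?_
  omega

private theorem pol_ne (p n : ℕ) (x : Fin (n + 1) → ℤ) (hx : x ≠ 0) (hp : ∀ j, |x j| < p) :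
    pol p n x ≠ 0 := by
  intro h0
  apply hx
  funext j
  have h1 := pol_coeff p n x j
  rw [h0, coeff_zero] at h1
  have h2 : (p : ℤ) ∣ x j := (ZMod.intCast_zmod_eq_zero_iff_dvd _ _).mp h1.symm
  exact Int.eq_zero_of_abs_lt_dvd h2 (hp j)

private theorem exists_t (n p : ℕ) (hp : p.Prime) (hlt : (n + 1) * 6 ^ (n + 1) < p) :
    ∃ t : ZMod p, ∀ x ∈ shortV (n + 1), x ≠ 0 → (pol p n x).eval t ≠ 0 := by
  classical
  have : Fact p.Prime := ⟨hp⟩
  set bad : Finset (ZMod p) := ((shortV (n + 1)).filter fun x => x ≠ 0).biUnion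
    fun x => (pol p n x).roots.toFinset with hbad
  have hcard : bad.card < Fintype.card (ZMod p) := by
    rw [ZMod.card]
    refine lt_of_le_of_lt ?_ hlt
    have h1 : bad.card ≤ ∑ x ∈ (shortV (n + 1)).filter fun x => x ≠ 0, (n + 1) := by
      refine Finset.card_biUnion_le.trans (Finset.sum_le_sum fun x _ => ?_)
      refine (Multiset.toFinset_card_le _).trans ((card_roots' _).trans ?_)
      exact (pol_degree p n x).trans (Nat.le_succ n)
    refine h1.trans ?_
    rw [Finset.sum_const, smul_eq_mul, mul_comm]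
    refine Nat.mul_le_mul_left _ ?_
    have h2 := card_shortV (n + 1)
    have h3 : (shortV (n + 1)).card ≤ 6 ^ (n + 1) := by exact_mod_cast h2
    exact (Finset.card_filter_le _ _).trans h3
  obtain ⟨t, ht⟩ : ∃ t, t ∉ bad := by
    by_contra hcon
    push Not at hcon
    have : bad = Finset.univ := Finset.eq_univ_of_forall hcon
    rw [this, Finset.card_univ] at hcard
    exact lt_irrefl _ hcard
  refine ⟨t, fun x hx hx0 h => ht ?_⟩
  have hpx : ∀ j, |x j| < p := by
    intro j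
    rw [mem_shortV] at hx
    have h1 : x j ^ 2 ≤ ∑ i, x i ^ 2 :=
      Finset.single_le_sum (f := fun j => x j ^ 2) (fun j _ => sq_nonneg _) (Finset.mem_univ j)
    have h2 : x j ^ 2 < (((n + 1 : ℕ)) : ℤ) := lt_of_le_of_lt h1 hx
    have h3 : |x j| ≤ x j ^ 2 := by
      rw [← sq_abs]
      rcases eq_or_lt_of_le (abs_nonneg (x j)) with h | h
      · rw [← h]; norm_num
      · have : 1 ≤ |x j| := h
        nlinarith
    have h4 : n + 1 < p := by
      refine lt_of_le_of_lt ?_ hlt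
      exact Nat.le_mul_of_pos_right _ (by positivity)
    have h5 : ((n + 1 : ℕ) : ℤ) < p := by exact_mod_cast h4
    linarith
  rw [hbad, Finset.mem_biUnion]
  refine ⟨x, Finset.mem_filter.mpr ⟨hx, hx0⟩, ?_⟩
  rw [Multiset.mem_toFinset, mem_roots (pol_ne p n x hx0 hpx)]
  exact h

private theorem pow_bound {d : ℕ} (hd : 0 < d) {p : ℕ} (hp : p ≤ 2 * (d * 6 ^ d)) :
    (p : ℝ) ^ ((2:ℝ) / (d:ℝ)) ≤ 144 := by
  have h1 : p ≤ 12 ^ d := by
    refine hp.trans ?_
    have h2 : 2 * d ≤ 2 ^ d := by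
      obtain ⟨k, rfl⟩ : ∃ k, d = k + 1 := ⟨d - 1, by omega⟩
      have := Nat.lt_two_pow_self (n := k)
      rw [pow_succ]
      omega
    calc 2 * (d * 6 ^ d) = (2 * d) * 6 ^ d := by ring
      _ ≤ 2 ^ d * 6 ^ d := Nat.mul_le_mul_right _ h2
      _ = 12 ^ d := by
        rw [← mul_pow]
        norm_num
  have h2 : (p : ℝ) ≤ 12 ^ d := by exact_mod_cast h1
  have hd' : (0 : ℝ) < d := by exact_mod_cast hd
  calc (p : ℝ) ^ ((2:ℝ) / (d:ℝ)) ≤ ((12 : ℝ) ^ d) ^ ((2:ℝ) / (d:ℝ)) :=
        Real.rpow_le_rpow (by positivity) h2 (by positivity)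
    _ = 144 := by
        rw [← Real.rpow_natCast, ← Real.rpow_mul (by norm_num), mul_div_cancel₀ _ hd'.ne']
        norm_num

theorem le_hermite_linear {d : ℕ} (hd : 0 < d) : (d : ℝ) / 144 ≤ hermite d := by
  classical
  obtain ⟨n, rfl⟩ : ∃ k, d = k + 1 := ⟨d - 1, by omega⟩
  obtain ⟨p, hp, hlt, hle⟩ := Nat.exists_prime_lt_and_le_two_mul ((n + 1) * 6 ^ (n + 1))
    (by positivity)
  obtain ⟨t, ht⟩ := exists_t n p hp hlt
  have : Fact p.Prime := ⟨hp⟩
  set τ : ℕ := t.val with hτ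
  have hτt : ((τ : ℤ) : ZMod p) = t := by
    rw [hτ]
    simp
  refine le_hermite hd ⟨Matrix.of fun i j : Fin (n + 1) =>
    if i = 0 then (if j = 0 then (p : ℝ) else -((τ : ℝ) ^ (j : ℕ))) else
      (if i = j then 1 else 0), ?_⟩
  set B : Matrix (Fin (n + 1)) (Fin (n + 1)) ℝ := Matrix.of fun i j : Fin (n + 1) =>
    if i = 0 then (if j = 0 then (p : ℝ) else -((τ : ℝ) ^ (j : ℕ))) else
      (if i = j then 1 else 0) with hB
  have hdet : B.det = p := by
    rw [Matrix.det_of_isUpperTriangular]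
    · rw [Fin.prod_univ_succ]
      have h1 : ∀ i : Fin n, B i.succ i.succ = 1 := by
        intro i
        simp [hB]
      rw [Finset.prod_congr rfl fun i _ => h1 i]
      simp [hB]
    · intro i j hij
      have h1 : i ≠ 0 := by
        rintro rfl
        exact absurd hij (by simp)
      have h2 : i ≠ j := fun h => by
        rw [h] at hij
        exact lt_irrefl _ hij
      simp [hB, h1, h2]
  have hp0 : (0 : ℝ) < p := by exact_mod_cast hp.pos
  refine ⟨by rw [hdet]; exact hp0.ne', fun v hv => ?_⟩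
  -- the vector
  set x : Fin (n + 1) → ℤ := fun i =>
    if i = 0 then (p : ℤ) * v 0 - ∑ j : Fin n, (τ : ℤ) ^ (j.succ : ℕ) * v j.succ else v i with hx
  have hmul : ∀ i, (B.mulVec (fun j => (v j : ℝ))) i = (x i : ℝ) := by
    intro i
    rw [Matrix.mulVec, dotProduct]
    by_cases hi : i = 0
    · subst hi
      rw [Fin.sum_univ_succ]
      simp only [hB, hx, Matrix.of_apply, if_true, Fin.succ_ne_zero, if_false]
      push_cast
      rw [sub_eq_add_neg, ← Finset.sum_neg_distrib]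
      congr 1
      refine Finset.sum_congr rfl fun j _ => ?_
      ring
    · rw [Finset.sum_eq_single i]
      · simp [hB, hx, hi]
      · intro j _ hji
        simp [hB, hi, Ne.symm hji]
      · intro h
        exact absurd (Finset.mem_univ i) h
  rw [Finset.sum_congr rfl fun i _ => by rw [hmul i]]
  have hx0 : x ≠ 0 := by
    intro h0
    have h1 : ∀ i : Fin n, v i.succ = 0 := by
      intro i
      have := congrFun h0 i.succ
      simpa [hx] using this
    have h2 : v 0 = 0 := by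
      have := congrFun h0 0
      simp only [hx, if_true, h1, mul_zero, Finset.sum_const_zero, sub_zero, Pi.zero_apply] at this
      have hp' : (p : ℤ) ≠ 0 := by exact_mod_cast hp.ne_zero
      exact (mul_eq_zero.mp this).resolve_left hp'
    apply hv
    funext i
    refine Fin.cases h2 (fun i => h1 i) i
  have hev : (pol p n x).eval t = 0 := by
    rw [pol, eval_finsetSum, Fin.sum_univ_succ]
    simp only [eval_mul, eval_C, eval_pow, eval_X, Fin.val_zero, pow_zero, mul_one]
    have h1 : ((x 0 : ℤ) : ZMod p) = - ∑ j : Fin n, t ^ (j.succ : ℕ) * (v j.succ : ZMod p) := by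
      simp only [hx, if_true]
      push_cast
      rw [CharP.cast_eq_zero, zero_mul, zero_sub]
      congr 1
      refine Finset.sum_congr rfl fun j _ => ?_
      have : ((τ : ℕ) : ZMod p) = t := by exact_mod_cast hτt
      rw [this]
    rw [h1, neg_add_eq_zero]
    refine Finset.sum_congr rfl fun j _ => ?_
    have h2 : x j.succ = v j.succ := by simp [hx]
    rw [h2]
    ring
  have hsum : ((n + 1 : ℕ) : ℤ) ≤ ∑ i, x i ^ 2 := by
    by_contra hcon
    push Not at hcon
    exact ht x (mem_shortV.mpr hcon) hx0 hev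
  have hsum' : ((n + 1 : ℕ) : ℝ) ≤ ∑ i, (x i : ℝ) ^ 2 := by exact_mod_cast hsum
  rw [Fintype.card_fin]
  refine le_trans ?_ hsum'
  have hb := pow_bound (d := n + 1) (by omega) hle
  have hd0 : (0 : ℝ) ≤ ((n + 1 : ℕ) : ℝ) / 144 := by positivity
  calc ((n + 1 : ℕ) : ℝ) / 144 * |B.det| ^ ((2:ℝ) / ((n + 1 : ℕ) : ℝ))
      = ((n + 1 : ℕ) : ℝ) / 144 * (p : ℝ) ^ ((2:ℝ) / ((n + 1 : ℕ) : ℝ)) := by
        rw [hdet, abs_of_pos hp0]
    _ ≤ ((n + 1 : ℕ) : ℝ) / 144 * 144 := mul_le_mul_of_nonneg_left hb hd0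
    _ = ((n + 1 : ℕ) : ℝ) := by ring

end Pool.Agent.Lib.MP_2cd45e_co
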