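import Mathlib

/-!
# Slowly decreasing sequences
-/

open Filter Topology

namespace Pool.Agent.Lib.MP_2cd45e_co

/-- slowly decreasing sequences -/
def SlowDec (u : ℕ → ℝ) : Prop :=
  ∀ ε > 0, ∃ δ > 0, ∀ d n : ℕ, 0 < d → d ≤ n → (n : ℝ) ≤ (1 + δ) * d → u d - ε ≤ u n

theorem conv_of_osc {u : ℕ → ℝ} (h : ∀ ε > 0, ∃ L : ℝ, ∀ᶠ n in atTop, |u n - L| ≤ ε) :
    ∃ L, Tendsto u atTop (𝓝 L) := by
  apply cauchySeq_tendsto_of_complete
  rw [Metric.cauchySeq_iff']
  intro ε hε
  obtain ⟨L, hL⟩ := h (ε / 3) (by positivity)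
  obtain ⟨n₀, hn₀⟩ := eventually_atTop.mp hL
  refine ⟨n₀, fun n hn => ?_⟩
  have h1 := hn₀ n hn
  have h2 := hn₀ n₀ le_rfl
  rw [Real.dist_eq, abs_lt]
  rw [abs_le] at h1 h2
  constructor <;> linarith [h1.1, h1.2, h2.1, h2.2]

/-- convergence along sequences whose ratios are close to `1` -/
theorem SlowDec.sub {u : ℕ → ℝ} (hu : SlowDec u)
    (h : ∀ δ > 0, ∃ s : ℕ → ℕ, StrictMono s ∧
      (∀ᶠ k in atTop, (s (k + 1) : ℝ) ≤ (1 + δ) * s k) ∧
      ∃ L, Tendsto (fun k => u (s k)) atTop (𝓝 L)) :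
    ∃ L, Tendsto u atTop (𝓝 L) := by
  apply conv_of_osc
  intro ε hε
  obtain ⟨δ, hδ, hslow⟩ := hu (ε / 2) (by positivity)
  obtain ⟨s, hs, hrat, L, hL⟩ := h δ hδ
  have hL' : ∀ᶠ k in atTop, |u (s k) - L| < ε / 2 := by
    have := (Metric.tendsto_nhds.mp hL) (ε / 2) (by positivity)
    filter_upwards [this] with k hk
    rwa [Real.dist_eq] at hk
  obtain ⟨K, hK⟩ := eventually_atTop.mp (hrat.and hL')
  refine ⟨L, ?_⟩
  filter_upwards [eventually_ge_atTop (s (K + 1))] with n hn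
  set k := Nat.findGreatest (fun k => s k ≤ n) n with hk
  have hK1 : K + 1 ≤ n := (hs.id_le (K + 1)).trans hn
  have hk1 : K + 1 ≤ k := Nat.le_findGreatest hK1 hn
  have hk2 : s k ≤ n := Nat.findGreatest_spec (P := fun k => s k ≤ n) hK1 hn
  have hk3 : n < s (k + 1) := by
    by_contra hcon
    push Not at hcon
    have h1 : k + 1 ≤ n := (hs.id_le (k + 1)).trans hcon
    have h2 : k + 1 ≤ k := Nat.le_findGreatest h1 hcon
    omega
  have hsk : 0 < s k := by
    have := hs.id_le k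
    have h2 : k ≤ s k := this
    omega
  have h1 := hK k (by omega)
  have h2 := hK (k + 1) (by omega)
  have hn' : ((s k : ℕ) : ℝ) ≤ n := by exact_mod_cast hk2
  have hn'' : (n : ℝ) ≤ (s (k + 1) : ℝ) := by exact_mod_cast hk3.le
  have h3 := hslow (s k) n hsk hk2 (hn''.trans h1.1)
  have h4 := hslow n (s (k + 1)) (by omega) hk3.le (h1.1.trans
    (mul_le_mul_of_nonneg_left hn' (by positivity)))
  have h5 := h1.2
  have h6 := h2.2
  rw [abs_lt] at h5 h6
  rw [abs_le]
  constructor <;> linarith [h5.1, h5.2, h6.1, h6.2]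

/-- convergence, if there is no loss in passing to multiples -/
theorem SlowDec.mul {u : ℕ → ℝ} (hu : SlowDec u) {M : ℝ} (hM : ∀ n, |u n| ≤ M)
    (h : ∀ ε > 0, ∃ D : ℕ, ∀ d ≥ D, ∀ k : ℕ, 1 ≤ k → u d - ε ≤ u (k * d)) :
    ∃ L, Tendsto u atTop (𝓝 L) := by
  have hb1 : IsBoundedUnder (· ≤ ·) atTop u :=
    isBoundedUnder_of ⟨M, fun n => (abs_le.mp (hM n)).2⟩
  have hb2 : IsBoundedUnder (· ≥ ·) atTop u :=
    isBoundedUnder_of ⟨-M, fun n => (abs_le.mp (hM n)).1⟩
  set L := limsup u atTop with hL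
  apply conv_of_osc
  intro ε hε
  obtain ⟨D, hD⟩ := h (ε / 3) (by positivity)
  obtain ⟨δ, hδ, hslow⟩ := hu (ε / 3) (by positivity)
  have h1 : ∃ᶠ n in atTop, L - ε / 3 < u n :=
    frequently_lt_of_lt_limsup hb2.isCoboundedUnder_le (by rw [← hL]; linarith)
  have h2 : ∀ᶠ n in atTop, u n < L + ε :=
    eventually_lt_of_limsup_lt (by rw [← hL]; linarith) hb1
  obtain ⟨d, hd, hdu⟩ := frequently_atTop.mp h1 (D + 1)
  have hd0 : 0 < d := by omega
  obtain ⟨q, hq⟩ := exists_nat_gt (1 / δ)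
  refine ⟨L, ?_⟩
  filter_upwards [h2, eventually_ge_atTop ((q + 1) * d)] with n hn hn'
  set k := n / d with hk
  have hk1 : q + 1 ≤ k := (Nat.le_div_iff_mul_le hd0).mpr hn'
  have hk2 : k * d ≤ n := Nat.div_mul_le_self n d
  have hk3 : n < (k + 1) * d := by
    have := Nat.lt_mul_div_succ n hd0
    rw [mul_comm] at this
    exact this
  have h3 := hD d (by omega) k (by omega)
  have hd' : (0 : ℝ) < d := by exact_mod_cast hd0
  have hkδ : 1 ≤ δ * k := by
    have h4 : 1 / δ < k := hq.trans_le (by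
      have : q ≤ k := by omega
      exact_mod_cast this)
    rw [div_lt_iff₀ hδ] at h4
    linarith [mul_comm δ (k : ℝ)]
  have h4 := hslow (k * d) n (by
    have : 0 < k := by omega
    positivity) hk2 (by
    have h5 : (n : ℝ) ≤ (k + 1) * d := by exact_mod_cast hk3.le
    push_cast
    nlinarith)
  rw [abs_le]
  constructor <;> linarith

/-- convergence of the means -/
theorem SlowDec.mean {u : ℕ → ℝ} (hu : SlowDec u) {L : ℝ}
    (h : Tendsto (fun n : ℕ => (∑ i ∈ Finset.range n, u i) / n) atTop (𝓝 L)) :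
    Tendsto u atTop (𝓝 L) := by
  rw [Metric.tendsto_atTop]
  intro ε hε
  obtain ⟨δ₀, hδ₀, hslow⟩ := hu (ε / 4) (by positivity)
  -- shrink
  set δ : ℝ := δ₀ / (1 + δ₀) with hδ
  have hδ0 : 0 < δ := by positivity
  have hδ1 : δ < 1 := by
    rw [hδ, div_lt_one (by positivity)]
    linarith
  have hδδ : δ ≤ δ₀ := by
    rw [hδ, div_le_iff₀ (by positivity)]
    nlinarith
  have hprod : (1 - δ) * (1 + δ₀) = 1 := by
    rw [hδ]
    field_simp
    ring
  set η : ℝ := ε * δ / 16 with hη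
  have hη0 : 0 < η := by positivity
  obtain ⟨n₀, hn₀⟩ := (Metric.tendsto_atTop.mp h) η hη0
  have hS : ∀ n ≥ n₀, 0 < n → |∑ i ∈ Finset.range n, u i - n * L| ≤ n * η := by
    intro n hn hn0
    have h1 := (hn₀ n hn).le
    rw [Real.dist_eq] at h1
    have hn' : (0 : ℝ) < n := by exact_mod_cast hn0
    have h2 : ∑ i ∈ Finset.range n, u i - n * L = n * ((∑ i ∈ Finset.range n, u i) / n - L) := by
      field_simp
    rw [h2, abs_mul, abs_of_pos hn']
    exact mul_le_mul_of_nonneg_left h1 hn'.le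
  -- the size of the window
  obtain ⟨n₁, hn₁⟩ := exists_nat_gt (2 / δ)
  obtain ⟨n₂, hn₂⟩ := exists_nat_gt (n₀ / (1 - δ))
  refine ⟨n₀ + n₁ + n₂ + 1, fun n hn => ?_⟩
  have hn0 : 0 < n := by omega
  have hn' : (0 : ℝ) < n := by exact_mod_cast hn0
  set m : ℕ := ⌊δ * n⌋₊ with hm
  have hm1 : (m : ℝ) ≤ δ * n := Nat.floor_le (by positivity)
  have hm2 : δ * n < m + 1 := Nat.lt_floor_add_one _
  have hn1 : 2 / δ < n := hn₁.trans_le (by
    have : n₁ ≤ n := by omega
    exact_mod_cast this)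
  have hδn : 2 < δ * n := by
    rw [div_lt_iff₀ hδ0] at hn1
    linarith [mul_comm δ (n : ℝ)]
  have hm3 : δ * n / 2 < m := by linarith
  have hm0 : (0 : ℝ) < m := by linarith
  have hmn : m < n := by
    have : (m : ℝ) < n := by nlinarith
    exact_mod_cast this
  have hnm : n₀ ≤ n - m := by
    have h1 : (n₀ : ℝ) / (1 - δ) < n := hn₂.trans_le (by
      have : n₂ ≤ n := by omega
      exact_mod_cast this)
    rw [div_lt_iff₀ (by linarith)] at h1
    have h2 : (n₀ : ℝ) ≤ n - m := by nlinarith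
    have h3 : ((n - m : ℕ) : ℝ) = n - m := by
      rw [Nat.cast_sub hmn.le]
    rw [← h3] at h2
    exact_mod_cast h2
  have h3n : (3 : ℝ) * n * η ≤ m * (6 * η / δ) := by
    have h8 : m * (6 * η / δ) = 6 * η * m / δ := by ring
    rw [h8, le_div_iff₀ hδ0]
    nlinarith
  have hηδ : 6 * η / δ = 3 * ε / 8 := by
    rw [hη]
    field_simp
    ring
  have hn2 : (2 : ℝ) < n := by nlinarith
  -- upper bound
  have hup : u n ≤ L + ε / 4 + 6 * η / δ := by
    have h1 : (m : ℝ) * (u n - ε / 4) ≤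
        ∑ i ∈ Finset.range (n + m), u i - ∑ i ∈ Finset.range n, u i := by
      rw [Finset.sum_range_add_sub_sum_range]
      have h2 : ∀ i ∈ Finset.range m, u n - ε / 4 ≤ u (n + i) := by
        intro i hi
        rw [Finset.mem_range] at hi
        refine hslow n (n + i) hn0 (by omega) ?_
        have h3 : (i : ℝ) ≤ m := by exact_mod_cast hi.le
        push_cast
        nlinarith
      have h4 := Finset.card_nsmul_le_sum _ _ _ h2
      rwa [Finset.card_range, nsmul_eq_mul] at h4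
    have h2 := hS (n + m) (by omega) (by omega)
    have h3 := hS n (by omega) hn0
    rw [abs_le] at h2 h3
    push_cast at h2
    have h4 : (m : ℝ) * (u n - ε / 4 - L) ≤ (2 * n + m) * η := by nlinarith [h2.2, h3.1]
    have hmn' : (m : ℝ) ≤ n := by exact_mod_cast hmn.le
    have h5 : (m : ℝ) * (u n - ε / 4 - L) ≤ m * (6 * η / δ) := by
      refine (h4.trans ?_).trans h3n
      nlinarith
    have h6 := le_of_mul_le_mul_left h5 hm0
    linarith
  -- lower bound
  have hlo : L - ε / 4 - 6 * η / δ ≤ u n := by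
    have h1 : ∑ i ∈ Finset.range ((n + 1 - m) + m), u i - ∑ i ∈ Finset.range (n + 1 - m), u i ≤
        (m : ℝ) * (u n + ε / 4) := by
      rw [Finset.sum_range_add_sub_sum_range]
      have h2 : ∀ i ∈ Finset.range m, u (n + 1 - m + i) ≤ u n + ε / 4 := by
        intro i hi
        rw [Finset.mem_range] at hi
        have h3 := hslow (n + 1 - m + i) n (by omega) (by omega) (by
          have h4 : (n : ℝ) - m ≤ ((n + 1 - m + i : ℕ) : ℝ) := by
            have : ((n - m : ℕ) : ℝ) ≤ ((n + 1 - m + i : ℕ) : ℝ) := by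
              have : n - m ≤ n + 1 - m + i := by omega
              exact_mod_cast this
            rwa [Nat.cast_sub hmn.le] at this
          have h5 : (1 - δ) * n ≤ ((n + 1 - m + i : ℕ) : ℝ) := by nlinarith
          calc (n : ℝ) = (1 + δ₀) * ((1 - δ) * n) := by
                rw [← mul_assoc, mul_comm (1 + δ₀), hprod, one_mul]
            _ ≤ (1 + δ₀) * ((n + 1 - m + i : ℕ) : ℝ) :=
                mul_le_mul_of_nonneg_left h5 (by positivity))
        linarith
      have h4 := Finset.sum_le_card_nsmul _ _ _ h2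
      rwa [Finset.card_range, nsmul_eq_mul] at h4
    rw [Nat.sub_add_cancel (by omega)] at h1
    have h2 := hS (n + 1) (by omega) (by omega)
    have h3 := hS (n + 1 - m) (by omega) (by omega)
    rw [Nat.cast_sub (by omega)] at h3
    rw [abs_le] at h2 h3
    push_cast at h2 h3
    have h4 : (m : ℝ) * (L - ε / 4 - u n) ≤ (2 * n + 2 - m) * η := by nlinarith [h2.1, h3.2]
    have h5 : (m : ℝ) * (L - ε / 4 - u n) ≤ m * (6 * η / δ) := by
      refine (h4.trans ?_).trans h3n
      nlinarith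
    have h6 := le_of_mul_le_mul_left h5 hm0
    linarith
  rw [hηδ] at hup hlo
  rw [Real.dist_eq, abs_lt]
  constructor <;> linarith

end Pool.Agent.Lib.MP_2cd45e_co
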