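import Pool.Agent.Lib.MP_2cd45e_co.Sum
import Pool.Agent.Lib.MP_2cd45e_co.Taub

/-!
# `hermite d / d` is slowly decreasing
-/

open Filter Topology

namespace Pool.Agent.Lib.MP_2cd45e_co

/-- the Hermite constant divided by the dimension -/
noncomputable def quo (d : ℕ) : ℝ := hermite d / d

theorem quo_zero : quo 0 = 0 := by simp [quo]

theorem quo_le (d : ℕ) : quo d ≤ 4 := by
  rcases Nat.eq_zero_or_pos d with rfl | hd
  · rw [quo_zero]; norm_num
  · have hd' : (0 : ℝ) < d := by exact_mod_cast hd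
    rw [quo, div_le_iff₀ hd']
    exact hermite_le hd

theorem le_quo {d : ℕ} (hd : 0 < d) : 1 / 144 ≤ quo d := by
  have hd' : (0 : ℝ) < d := by exact_mod_cast hd
  rw [quo, le_div_iff₀ hd']
  have := le_hermite_linear hd
  linarith

theorem quo_pos {d : ℕ} (hd : 0 < d) : 0 < quo d := by
  have := le_quo hd
  linarith

theorem quo_nonneg (d : ℕ) : 0 ≤ quo d := by
  rcases Nat.eq_zero_or_pos d with rfl | hd
  · rw [quo_zero]
  · exact (quo_pos hd).le

/-- the loss in an orthogonal sum -/
theorem log_quo_add {a b : ℕ} (ha : 0 < a) (hb : 0 < b) :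
    Real.log (quo a) - ((b : ℝ) / (a + b)) * Real.log 576 - Real.binEntropy ((b : ℝ) / (a + b)) ≤
      Real.log (quo (a + b)) := by
  have ha0 : (0 : ℝ) < a := by exact_mod_cast ha
  have hb0 : (0 : ℝ) < b := by exact_mod_cast hb
  have hab0 : (0 : ℝ) < a + b := by positivity
  have hA := hermite_pos ha
  have hB := hermite_pos hb
  have hAB := hermite_pos (d := a + b) (by omega)
  have h1 := Real.log_le_log (mul_pos (Real.rpow_pos_of_pos hA _) (Real.rpow_pos_of_pos hB _))
    (hermite_sum ha hb)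
  rw [Real.log_mul (Real.rpow_pos_of_pos hA _).ne' (Real.rpow_pos_of_pos hB _).ne',
    Real.log_rpow hA, Real.log_rpow hB] at h1
  have e1 : Real.log (hermite a) = Real.log (quo a) + Real.log a := by
    rw [quo, Real.log_div hA.ne' ha0.ne']
    ring
  have e2 : Real.log (hermite b) = Real.log (quo b) + Real.log b := by
    rw [quo, Real.log_div hB.ne' hb0.ne']
    ring
  have e3 : Real.log (hermite (a + b)) = Real.log (quo (a + b)) + Real.log (a + b) := by
    rw [quo, Real.log_div hAB.ne' (by positivity)]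
    push_cast
    ring
  rw [e1, e2, e3] at h1
  set p : ℝ := (b : ℝ) / (a + b) with hp
  have hp' : (a : ℝ) / (a + b) = 1 - p := by
    rw [hp]
    field_simp
    ring
  rw [hp'] at h1
  have e4 : Real.binEntropy p = -(p * (Real.log b - Real.log (a + b))) -
      (1 - p) * (Real.log a - Real.log (a + b)) := by
    rw [Real.binEntropy, ← hp', Real.log_inv, Real.log_inv, hp,
      Real.log_div hb0.ne' hab0.ne', Real.log_div ha0.ne' hab0.ne']
    ring
  have h2 : Real.log (quo a) - Real.log (quo b) ≤ Real.log 576 := by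
    have h3 : Real.log (quo a) ≤ Real.log 4 := Real.log_le_log (quo_pos ha) (quo_le a)
    have h4 : Real.log (1 / 144) ≤ Real.log (quo b) := Real.log_le_log (by norm_num) (le_quo hb)
    have h5 : Real.log 576 = Real.log 4 - Real.log (1 / 144) := by
      rw [← Real.log_div (by norm_num) (by norm_num)]
      norm_num
    linarith
  have hp0 : 0 ≤ p := by positivity
  rw [e4]
  nlinarith [mul_le_mul_of_nonneg_left h2 hp0]

theorem log_quo_slowDec : SlowDec fun d => Real.log (quo d) := by
  intro ε hε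
  have hcont : Continuous fun p : ℝ => p * Real.log 576 + Real.binEntropy p :=
    (continuous_id.mul continuous_const).add Real.binEntropy_continuous
  have h0 : (0 : ℝ) * Real.log 576 + Real.binEntropy 0 = 0 := by simp
  have h1 := hcont.tendsto 0
  rw [h0] at h1
  obtain ⟨δ, hδ, h2⟩ := (Metric.tendsto_nhds_nhds.mp h1) ε hε
  refine ⟨δ / 2, by positivity, fun d n hd hdn hn => ?_⟩
  rcases hdn.eq_or_lt with rfl | hlt
  · linarith
  obtain ⟨m, rfl⟩ : ∃ m, n = d + m := ⟨n - d, by omega⟩
  have hm : 0 < m := by omega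
  have hd0 : (0 : ℝ) < d := by exact_mod_cast hd
  have hm0 : (0 : ℝ) < m := by exact_mod_cast hm
  have h3 := log_quo_add hd hm
  have h4 : (m : ℝ) / (d + m) < δ := by
    rw [div_lt_iff₀ (by positivity)]
    push_cast at hn
    nlinarith
  have h5 : (0 : ℝ) ≤ (m : ℝ) / (d + m) := by positivity
  have h6 := h2 (x := (m : ℝ) / (d + m)) (by rwa [Real.dist_eq, sub_zero, abs_of_nonneg h5])
  rw [Real.dist_eq, sub_zero] at h6
  have h7 := (abs_lt.mp h6).2
  show Real.log (quo d) - ε ≤ Real.log (quo (d + m))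
  linarith

theorem quo_slowDec : SlowDec quo := by
  intro ε hε
  obtain ⟨δ, hδ, h⟩ := log_quo_slowDec (ε / 4) (by positivity)
  refine ⟨δ, hδ, fun d n hd hdn hn => ?_⟩
  have h1 : Real.log (quo d) - ε / 4 ≤ Real.log (quo n) := h d n hd hdn hn
  have hd0 := quo_pos hd
  have hn0 := quo_pos (lt_of_lt_of_le hd hdn)
  have h2 := Real.exp_le_exp.mpr h1
  rw [Real.exp_log hn0, sub_eq_add_neg, Real.exp_add, Real.exp_log hd0] at h2
  have h3 := Real.add_one_le_exp (-(ε / 4))
  have h4 := quo_le d
  nlinarith [mul_le_mul_of_nonneg_left h3 hd0.le]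

end Pool.Agent.Lib.MP_2cd45e_co
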