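import Pool.Agent.Lib.MP_2cd45e_co.Lower2

/-!
# Hermite constants: orthogonal sums
-/

namespace Pool.Agent.Lib.MP_2cd45e_co

theorem Good.congr {α β : Type} [Fintype α] [DecidableEq α] [Fintype β] [DecidableEq β]
    (e : α ≃ β) {r : ℝ} (h : Good α r) : Good β r := by
  obtain ⟨B, hB, hv⟩ := h
  refine ⟨B.reindex e e, by rwa [Matrix.det_reindex_self], fun v hv0 => ?_⟩
  have hw : (fun a => v (e a)) ≠ 0 := by
    intro h0
    apply hv0
    funext b
    have := congrFun h0 (e.symm b)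
    simpa using this
  have h1 := hv (fun a => v (e a)) hw
  rw [Matrix.det_reindex_self, ← Fintype.card_congr e]
  refine h1.trans (le_of_eq ?_)
  rw [← Equiv.sum_comp e]
  refine Finset.sum_congr rfl fun i _ => ?_
  congr 1
  rw [Matrix.mulVec, Matrix.mulVec, dotProduct, dotProduct, ← Equiv.sum_comp e]
  refine Finset.sum_congr rfl fun j _ => ?_
  simp [Matrix.reindex_apply]

theorem Good.sum {α β : Type} [Fintype α] [DecidableEq α] [Fintype β] [DecidableEq β]
    (hα : 0 < Fintype.card α) (hβ : 0 < Fintype.card β) {r s : ℝ} (hr : 0 < r) (hs : 0 < s)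
    (h1 : Good α r) (h2 : Good β s) :
    Good (α ⊕ β) (r ^ ((Fintype.card α : ℝ) / (Fintype.card α + Fintype.card β)) *
      s ^ ((Fintype.card β : ℝ) / (Fintype.card α + Fintype.card β))) := by
  obtain ⟨B₁, hB₁, hv₁⟩ := h1
  obtain ⟨B₂, hB₂, hv₂⟩ := h2
  set a : ℝ := (Fintype.card α : ℝ) with ha
  set b : ℝ := (Fintype.card β : ℝ) with hb
  have ha0 : 0 < a := by rw [ha]; exact_mod_cast hα
  have hb0 : 0 < b := by rw [hb]; exact_mod_cast hβ
  have hD₁ : 0 < |B₁.det| := abs_pos.mpr hB₁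
  have hD₂ : 0 < |B₂.det| := abs_pos.mpr hB₂
  set P₁ : ℝ := r * |B₁.det| ^ (2 / a) with hP₁
  set P₂ : ℝ := s * |B₂.det| ^ (2 / b) with hP₂
  have hP₁0 : 0 < P₁ := mul_pos hr (Real.rpow_pos_of_pos hD₁ _)
  have hP₂0 : 0 < P₂ := mul_pos hs (Real.rpow_pos_of_pos hD₂ _)
  set x : ℝ := P₁ ^ (-(1:ℝ) / 2) with hx
  set y : ℝ := P₂ ^ (-(1:ℝ) / 2) with hy
  have hx0 : 0 < x := Real.rpow_pos_of_pos hP₁0 _
  have hy0 : 0 < y := Real.rpow_pos_of_pos hP₂0 _
  have hx2 : x ^ 2 * P₁ = 1 := by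
    rw [hx, ← Real.rpow_natCast, ← Real.rpow_mul hP₁0.le]
    norm_num
    rw [Real.rpow_neg_one, inv_mul_cancel₀ hP₁0.ne']
  have hy2 : y ^ 2 * P₂ = 1 := by
    rw [hy, ← Real.rpow_natCast, ← Real.rpow_mul hP₂0.le]
    norm_num
    rw [Real.rpow_neg_one, inv_mul_cancel₀ hP₂0.ne']
  have hdx : x ^ Fintype.card α * |B₁.det| = r ^ (-a / 2) := by
    rw [hx, ← Real.rpow_natCast, ← Real.rpow_mul hP₁0.le, hP₁,
      Real.mul_rpow hr.le (Real.rpow_nonneg hD₁.le _), ← Real.rpow_mul hD₁.le, ← ha]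
    have e1 : (-1 : ℝ) / 2 * a = -a / 2 := by ring
    have e2 : 2 / a * (-a / 2) = -1 := by field_simp
    rw [e1, e2, Real.rpow_neg_one, mul_assoc, inv_mul_cancel₀ hD₁.ne', mul_one]
  have hdy : y ^ Fintype.card β * |B₂.det| = s ^ (-b / 2) := by
    rw [hy, ← Real.rpow_natCast, ← Real.rpow_mul hP₂0.le, hP₂,
      Real.mul_rpow hs.le (Real.rpow_nonneg hD₂.le _), ← Real.rpow_mul hD₂.le, ← hb]
    have e1 : (-1 : ℝ) / 2 * b = -b / 2 := by ring
    have e2 : 2 / b * (-b / 2) = -1 := by field_simp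
    rw [e1, e2, Real.rpow_neg_one, mul_assoc, inv_mul_cancel₀ hD₂.ne', mul_one]
  have hdet : |(Matrix.fromBlocks (x • B₁) 0 0 (y • B₂)).det| = r ^ (-a / 2) * s ^ (-b / 2) := by
    rw [Matrix.det_fromBlocks_zero₂₁, Matrix.det_smul, Matrix.det_smul, abs_mul, abs_mul, abs_mul,
      abs_of_pos (pow_pos hx0 _), abs_of_pos (pow_pos hy0 _), hdx, hdy]
  refine ⟨Matrix.fromBlocks (x • B₁) 0 0 (y • B₂), ?_, fun v hv => ?_⟩
  · rw [← abs_pos, hdet]
    exact mul_pos (Real.rpow_pos_of_pos hr _) (Real.rpow_pos_of_pos hs _)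
  · have hone : r ^ (a / (a + b)) * s ^ (b / (a + b)) *
        |(Matrix.fromBlocks (x • B₁) 0 0 (y • B₂)).det| ^
          ((2 : ℝ) / (Fintype.card (α ⊕ β) : ℝ)) = 1 := by
      rw [hdet, Fintype.card_sum]
      push_cast
      rw [← ha, ← hb, Real.mul_rpow (Real.rpow_nonneg hr.le _) (Real.rpow_nonneg hs.le _),
        ← Real.rpow_mul hr.le, ← Real.rpow_mul hs.le, mul_mul_mul_comm,
        ← Real.rpow_add hr, ← Real.rpow_add hs]
      have e1 : a / (a + b) + -a / 2 * (2 / (a + b)) = 0 := by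
        field_simp
        ring
      have e2 : b / (a + b) + -b / 2 * (2 / (a + b)) = 0 := by
        field_simp
        ring
      rw [e1, e2, Real.rpow_zero, Real.rpow_zero, mul_one]
    rw [hone, Fintype.sum_sum_type]
    have hl : ∀ i, (Matrix.fromBlocks (x • B₁) 0 0 (y • B₂)).mulVec (fun j => (v j : ℝ)) (Sum.inl i)
        = x * (B₁.mulVec (fun j => (v (Sum.inl j) : ℝ))) i := by
      intro i
      simp only [Matrix.mulVec, dotProduct, Fintype.sum_sum_type, Matrix.fromBlocks_apply₁₁,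
        Matrix.fromBlocks_apply₁₂, Matrix.smul_apply, smul_eq_mul, Matrix.zero_apply, zero_mul,
        Finset.sum_const_zero, add_zero, Finset.mul_sum, mul_assoc]
    have hr' : ∀ i, (Matrix.fromBlocks (x • B₁) 0 0 (y • B₂)).mulVec (fun j => (v j : ℝ)) (Sum.inr i)
        = y * (B₂.mulVec (fun j => (v (Sum.inr j) : ℝ))) i := by
      intro i
      simp only [Matrix.mulVec, dotProduct, Fintype.sum_sum_type, Matrix.fromBlocks_apply₂₁,
        Matrix.fromBlocks_apply₂₂, Matrix.smul_apply, smul_eq_mul, Matrix.zero_apply, zero_mul,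
        Finset.sum_const_zero, zero_add, Finset.mul_sum, mul_assoc]
    simp only [hl, hr', mul_pow, ← Finset.mul_sum]
    by_cases h : (fun i => v (Sum.inl i)) = 0
    · have h' : (fun i => v (Sum.inr i)) ≠ 0 := by
        intro h'
        apply hv
        funext i
        rcases i with i | i
        · exact congrFun h i
        · exact congrFun h' i
      have h3 := hv₂ _ h'
      have h4 : 1 ≤ y ^ 2 * ∑ i, (B₂.mulVec (fun j => (v (Sum.inr j) : ℝ))) i ^ 2 := by
        rw [← hy2]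
        exact mul_le_mul_of_nonneg_left h3 (sq_nonneg _)
      have h5 : 0 ≤ x ^ 2 * ∑ i, (B₁.mulVec (fun j => (v (Sum.inl j) : ℝ))) i ^ 2 :=
        mul_nonneg (sq_nonneg _) (Finset.sum_nonneg fun i _ => sq_nonneg _)
      linarith
    · have h3 := hv₁ _ h
      have h4 : 1 ≤ x ^ 2 * ∑ i, (B₁.mulVec (fun j => (v (Sum.inl j) : ℝ))) i ^ 2 := by
        rw [← hx2]
        exact mul_le_mul_of_nonneg_left h3 (sq_nonneg _)
      have h5 : 0 ≤ y ^ 2 * ∑ i, (B₂.mulVec (fun j => (v (Sum.inr j) : ℝ))) i ^ 2 :=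
        mul_nonneg (sq_nonneg _) (Finset.sum_nonneg fun i _ => sq_nonneg _)
      linarith

theorem hermite_pos {d : ℕ} (hd : 0 < d) : 0 < hermite d := by
  have h1 := le_hermite_linear hd
  have h2 : (0 : ℝ) < d := by exact_mod_cast hd
  have h3 : (0 : ℝ) < d / 144 := by positivity
  linarith

/-- `γ_a ^ a γ_b ^ b ≤ γ_(a+b) ^ (a+b)` -/
theorem hermite_sum {a b : ℕ} (ha : 0 < a) (hb : 0 < b) :
    hermite a ^ ((a : ℝ) / (a + b)) * hermite b ^ ((b : ℝ) / (a + b)) ≤ hermite (a + b) := by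
  have ha0 : (0 : ℝ) < a := by exact_mod_cast ha
  have hb0 : (0 : ℝ) < b := by exact_mod_cast hb
  have hγa := hermite_pos ha
  have hγb := hermite_pos hb
  have key : ∀ c : ℝ, 0 < c → c < 1 →
      c * (hermite a ^ ((a : ℝ) / (a + b)) * hermite b ^ ((b : ℝ) / (a + b))) ≤
        hermite (a + b) := by
    intro c hc hc1
    have h1 : Good (Fin a) (c * hermite a) := good_of_lt (by nlinarith)
    have h2 : Good (Fin b) (c * hermite b) := good_of_lt (by nlinarith)
    have h3 := Good.sum (by rwa [Fintype.card_fin]) (by rwa [Fintype.card_fin])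
      (mul_pos hc hγa) (mul_pos hc hγb) h1 h2
    rw [Fintype.card_fin, Fintype.card_fin] at h3
    have h4 := le_hermite (by omega) (h3.congr finSumFinEquiv)
    refine le_trans (le_of_eq ?_) h4
    rw [Real.mul_rpow hc.le hγa.le, Real.mul_rpow hc.le hγb.le, mul_mul_mul_comm,
      ← Real.rpow_add hc, ← add_div, div_self (by positivity), Real.rpow_one]
  set T := hermite a ^ ((a : ℝ) / (a + b)) * hermite b ^ ((b : ℝ) / (a + b)) with hT
  have hT0 : 0 < T := mul_pos (Real.rpow_pos_of_pos hγa _) (Real.rpow_pos_of_pos hγb _)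
  by_contra hcon
  push Not at hcon
  have hpos : 0 < hermite (a + b) := hermite_pos (by omega)
  have h5 := key ((hermite (a + b) / T + 1) / 2) (by positivity) (by
    have : hermite (a + b) / T < 1 := by rwa [div_lt_one hT0]
    linarith)
  have h6 : (hermite (a + b) / T + 1) / 2 * T = (hermite (a + b) + T) / 2 := by
    field_simp
  rw [h6] at h5
  linarith

end Pool.Agent.Lib.MP_2cd45e_co
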