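import Pool.Agent.Lib.MP_2cd45e_co.Slow

/-!
# Doubling and tripling
-/

open Filter Topology

namespace Pool.Agent.Lib.MP_2cd45e_co

private theorem irr : Irrational (Real.log 2 / Real.log 3) := by
  have h2 : 0 < Real.log 2 := Real.log_pos (by norm_num)
  have h3 : 0 < Real.log 3 := Real.log_pos (by norm_num)
  rintro ⟨q, hq⟩
  have hq0 : (0 : ℝ) < q := by rw [hq]; positivity
  have hq0' : 0 < q := by exact_mod_cast hq0
  have hnum : 0 < q.num := Rat.num_pos.mpr hq0'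
  obtain ⟨a, ha⟩ := Int.eq_ofNat_of_zero_le hnum.le
  have hden : (0 : ℝ) < (q.den : ℝ) := by exact_mod_cast q.den_pos
  have h4 : (q.den : ℝ) * Real.log 2 = (a : ℝ) * Real.log 3 := by
    have h5 : (q : ℝ) = (a : ℝ) / q.den := by
      rw [Rat.cast_def, ha]
      simp
    rw [h5] at hq
    field_simp at hq
    linarith
  rw [← Real.log_pow, ← Real.log_pow] at h4
  have h5 : (2 : ℝ) ^ q.den = 3 ^ a := Real.log_injOn_pos (Set.mem_Ioi.mpr (by positivity))
    (Set.mem_Ioi.mpr (by positivity)) h4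
  have h6 : (2 : ℕ) ^ q.den = 3 ^ a := by exact_mod_cast h5
  have h7 : Odd (3 ^ a : ℕ) := Odd.pow (by decide)
  rw [← h6] at h7
  have h8 : Even (2 ^ q.den : ℕ) := Even.pow_of_ne_zero (by decide) q.den_pos.ne'
  exact (Nat.not_even_iff_odd.mpr h7) h8

theorem two_three {η : ℝ} (hη : 0 < η) : ∃ Y : ℝ, ∀ y ≥ Y, ∃ i j : ℕ,
    i * Real.log 2 + j * Real.log 3 ≤ y ∧ y < i * Real.log 2 + j * Real.log 3 + η := by
  have h2 : 0 < Real.log 2 := Real.log_pos (by norm_num)
  have h3 : 0 < Real.log 3 := Real.log_pos (by norm_num)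
  have hd := dense_addSubgroupClosure_pair_iff.mpr irr
  obtain ⟨s, hs, hs1⟩ := hd.exists_between hη
  rw [SetLike.mem_coe, AddSubgroup.mem_closure_pair] at hs
  obtain ⟨m, n, hmn⟩ := hs
  simp only [zsmul_eq_mul] at hmn
  obtain ⟨T, hT⟩ := exists_nat_gt (Real.log 2 / s)
  have hs0 := hs1.1
  refine ⟨T * (|m| * Real.log 2 + |n| * Real.log 3), fun y hy => ?_⟩
  set j₀ : ℕ := T * n.natAbs with hj₀
  set i₀ : ℕ := ⌊(y - j₀ * Real.log 3) / Real.log 2⌋₊ with hi₀
  have hj₀' : (j₀ : ℝ) = T * |n| := by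
    rw [hj₀]
    push_cast
    rw [Nat.cast_natAbs]
    push_cast
    ring
  have hq : (T : ℝ) * |m| ≤ (y - j₀ * Real.log 3) / Real.log 2 := by
    rw [le_div_iff₀ h2, hj₀']
    linarith
  have hq0 : 0 ≤ (y - j₀ * Real.log 3) / Real.log 2 := le_trans (by positivity) hq
  have hi1 : (i₀ : ℝ) * Real.log 2 + j₀ * Real.log 3 ≤ y := by
    have := Nat.floor_le hq0
    rw [← hi₀, le_div_iff₀ h2] at this
    linarith
  have hi2 : y < (i₀ : ℝ) * Real.log 2 + j₀ * Real.log 3 + Real.log 2 := by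
    have := Nat.lt_floor_add_one ((y - j₀ * Real.log 3) / Real.log 2)
    rw [← hi₀, div_lt_iff₀ h2] at this
    linarith
  have hi3 : T * m.natAbs ≤ i₀ := by
    rw [hi₀]
    apply Nat.le_floor
    refine le_trans (le_of_eq ?_) hq
    push_cast
    rw [Nat.cast_natAbs]
    push_cast
    ring
  set p₀ : ℝ := (i₀ : ℝ) * Real.log 2 + j₀ * Real.log 3 with hp₀
  set t : ℕ := ⌊(y - p₀) / s⌋₊ with ht
  have ht0 : 0 ≤ (y - p₀) / s := div_nonneg (by linarith) hs0.le
  have ht1 : t * s ≤ y - p₀ := by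
    have := Nat.floor_le ht0
    rwa [← ht, le_div_iff₀ hs0] at this
  have ht2 : y - p₀ < (t + 1) * s := by
    have := Nat.lt_floor_add_one ((y - p₀) / s)
    rwa [← ht, div_lt_iff₀ hs0] at this
  have htT : t ≤ T := by
    have h4 : (t : ℝ) < T := by
      refine lt_of_le_of_lt ?_ hT
      rw [le_div_iff₀ hs0]
      linarith
    exact_mod_cast h4.le
  have hi4 : 0 ≤ (i₀ : ℤ) + t * m := by
    have h4 : ((T * m.natAbs : ℕ) : ℤ) ≤ i₀ := by exact_mod_cast hi3
    have h5 : (t : ℤ) * m.natAbs ≤ T * m.natAbs :=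
      mul_le_mul_of_nonneg_right (by exact_mod_cast htT) (by positivity)
    have h6 : -((t : ℤ) * m.natAbs) ≤ t * m := by
      rw [← mul_neg]
      exact mul_le_mul_of_nonneg_left (by omega) (by positivity)
    push_cast at h4 h5 h6
    linarith
  have hj4 : 0 ≤ (j₀ : ℤ) + t * n := by
    have h5 : (t : ℤ) * n.natAbs ≤ T * n.natAbs :=
      mul_le_mul_of_nonneg_right (by exact_mod_cast htT) (by positivity)
    have h6 : -((t : ℤ) * n.natAbs) ≤ t * n := by
      rw [← mul_neg]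
      exact mul_le_mul_of_nonneg_left (by omega) (by positivity)
    rw [hj₀]
    push_cast at h5 h6 ⊢
    linarith
  obtain ⟨i, hi⟩ := Int.eq_ofNat_of_zero_le hi4
  obtain ⟨j, hj⟩ := Int.eq_ofNat_of_zero_le hj4
  have hi' : (i : ℝ) = i₀ + t * m := by
    have : ((i : ℤ) : ℝ) = (((i₀ : ℤ) + t * m : ℤ) : ℝ) := by rw [hi]
    push_cast at this
    exact this
  have hj' : (j : ℝ) = j₀ + t * n := by
    have : ((j : ℤ) : ℝ) = (((j₀ : ℤ) + t * n : ℤ) : ℝ) := by rw [hj]
    push_cast at this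
    exact this
  have hij : (i : ℝ) * Real.log 2 + j * Real.log 3 = p₀ + t * s := by
    rw [hi', hj', hp₀, ← hmn]
    ring
  refine ⟨i, j, ?_, ?_⟩
  · rw [hij]
    linarith
  · rw [hij]
    have := hs1.2
    linarith

/-- convergence, if there is no loss in repeated doubling and tripling -/
theorem SlowDec.two_three {u : ℕ → ℝ} (hu : SlowDec u) {M : ℝ} (hM : ∀ n, |u n| ≤ M)
    (h : ∀ ε > 0, ∃ D : ℕ, ∀ d ≥ D, ∀ i j : ℕ, u d - ε ≤ u (2 ^ i * 3 ^ j * d)) :
    ∃ L, Tendsto u atTop (𝓝 L) := by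
  have hb1 : IsBoundedUnder (· ≤ ·) atTop u :=
    isBoundedUnder_of ⟨M, fun n => (abs_le.mp (hM n)).2⟩
  have hb2 : IsBoundedUnder (· ≥ ·) atTop u :=
    isBoundedUnder_of ⟨-M, fun n => (abs_le.mp (hM n)).1⟩
  set L := limsup u atTop with hL
  apply conv_of_osc
  intro ε hε
  obtain ⟨D, hD⟩ := h (ε / 3) (by positivity)
  obtain ⟨δ, hδ, hslow⟩ := hu (ε / 3) (by positivity)
  have h1 : ∃ᶠ n in atTop, L - ε / 3 < u n :=
    frequently_lt_of_lt_limsup hb2.isCoboundedUnder_le (by rw [← hL]; linarith)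
  have h2 : ∀ᶠ n in atTop, u n < L + ε :=
    eventually_lt_of_limsup_lt (by rw [← hL]; linarith) hb1
  obtain ⟨d, hd, hdu⟩ := frequently_atTop.mp h1 (D + 1)
  have hd0 : 0 < d := by omega
  have hd' : (0 : ℝ) < d := by exact_mod_cast hd0
  obtain ⟨Y, hY⟩ := Pool.Agent.Lib.MP_2cd45e_co.two_three (η := Real.log (1 + δ))
    (Real.log_pos (by linarith))
  obtain ⟨n₀, hn₀⟩ := exists_nat_gt (d * Real.exp Y)
  refine ⟨L, ?_⟩
  filter_upwards [h2, eventually_ge_atTop (n₀ + 1)] with n hn hn'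
  have hn0 : (0 : ℝ) < n := by
    have : 0 < n := by omega
    exact_mod_cast this
  have h3 : d * Real.exp Y < n := hn₀.trans_le (by
    have : n₀ ≤ n := by omega
    exact_mod_cast this)
  have h4 : Y ≤ Real.log (n / d) := by
    rw [Real.le_log_iff_exp_le (by positivity), le_div_iff₀ hd']
    linarith [mul_comm (d : ℝ) (Real.exp Y)]
  obtain ⟨i, j, hij1, hij2⟩ := hY _ h4
  have e1 : (i : ℝ) * Real.log 2 + j * Real.log 3 = Real.log (2 ^ i * 3 ^ j) := by
    rw [Real.log_mul (by positivity) (by positivity), Real.log_pow, Real.log_pow]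
  rw [e1] at hij1 hij2
  rw [← Real.log_mul (by positivity) (by positivity)] at hij2
  have h5 : (2 : ℝ) ^ i * 3 ^ j ≤ n / d :=
    (Real.log_le_log_iff (by positivity) (by positivity)).mp hij1
  have h6 : (n : ℝ) / d < 2 ^ i * 3 ^ j * (1 + δ) :=
    (Real.log_lt_log_iff (by positivity) (by positivity)).mp hij2
  rw [le_div_iff₀ hd'] at h5
  rw [div_lt_iff₀ hd'] at h6
  have h7 := hD d (by omega) i j
  have h8 := hslow (2 ^ i * 3 ^ j * d) n (by positivity) (by exact_mod_cast h5) (by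
    push_cast
    linarith)
  rw [abs_le]
  constructor <;> linarith

end Pool.Agent.Lib.MP_2cd45e_co
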